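import Mathlib

/-!
# Distribution functions which are nearly geometric

`F` is the distribution function of a measure on an interval; its profile on the translated
interval is nearly the same, which gives the relation `F (x + y) = F x + q F y` up to `e`. Then the
masses of long intervals which are not too far apart are nearly equal.
-/

set_option autoImplicit false

namespace Pool.OC

open Finset

/-- The partial sums of the geometric series. -/
def gS (q : ℝ) (i : ℕ) : ℝ := ∑ j ∈ range i, q ^ j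

theorem gS_succ (q : ℝ) (i : ℕ) : gS q (i + 1) = 1 + q * gS q i := by
  unfold gS
  rw [Finset.sum_range_succ', Finset.mul_sum, pow_zero, add_comm]
  congr 1
  exact Finset.sum_congr rfl fun j _ => by rw [pow_succ, mul_comm]

theorem gS_succ' (q : ℝ) (i : ℕ) : gS q (i + 1) = gS q i + q ^ i := by
  unfold gS
  rw [Finset.sum_range_succ]

theorem gS_zero (q : ℝ) : gS q 0 = 0 := by
  unfold gS
  simp

theorem gS_mono {q : ℝ} (hq : 0 ≤ q) {i j : ℕ} (h : i ≤ j) : gS q i ≤ gS q j := by
  unfold gS
  exact Finset.sum_le_sum_of_subset_of_nonneg (Finset.range_mono h) fun k _ _ => pow_nonneg hq k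

theorem gS_nonneg {q : ℝ} (hq : 0 ≤ q) (i : ℕ) : 0 ≤ gS q i :=
  Finset.sum_nonneg fun k _ => pow_nonneg hq k

theorem gS_le {q : ℝ} (hq : 0 ≤ q) (hq1 : q ≤ 1) (i : ℕ) : gS q i ≤ i := by
  unfold gS
  calc _ ≤ ∑ _j ∈ range i, (1 : ℝ) := Finset.sum_le_sum fun k _ => pow_le_one₀ hq hq1
    _ = i := by simp

theorem gS_add (q : ℝ) (i j : ℕ) : gS q (i + j) = gS q i + q ^ i * gS q j := by
  unfold gS
  rw [Finset.sum_range_add, Finset.mul_sum]
  congr 1
  exact Finset.sum_congr rfl fun k _ => by rw [pow_add]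

/-- `S_m (1 - q ^ k) ≤ S_k`. -/
theorem gS_tail {q : ℝ} (hq : 0 ≤ q) (hq1 : q ≤ 1) (m k : ℕ) : gS q m * (1 - q ^ k) ≤ gS q k := by
  have h0 : 0 ≤ 1 - q ^ k := by
    have := pow_le_one₀ (n := k) hq hq1
    linarith
  rcases Nat.le_total m k with h | h
  · calc gS q m * (1 - q ^ k) ≤ gS q m * 1 := by
          refine mul_le_mul_of_nonneg_left ?_ (gS_nonneg hq m)
          have := pow_nonneg hq k
          linarith
      _ ≤ _ := by rw [mul_one]; exact gS_mono hq h
  · obtain ⟨j, rfl⟩ := Nat.exists_eq_add_of_le h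
    have e := gS_add q k j
    have h1 : gS q j ≤ gS q (k + j) := gS_mono hq (by omega)
    have h2 := mul_le_mul_of_nonneg_left h1 (pow_nonneg hq k)
    nlinarith

/-- Upper bound for a difference of partial sums. -/
theorem gS_sub_le {q : ℝ} (hq : 0 ≤ q) (hq1 : q ≤ 1) (s d : ℕ) :
    gS q (s + d) - gS q s ≤ q ^ s * d := by
  rw [gS_add]
  have := mul_le_mul_of_nonneg_left (gS_le hq hq1 d) (pow_nonneg hq s)
  linarith

/-- Lower bound for a difference of partial sums. -/
theorem le_gS_sub {q : ℝ} (hq : 0 ≤ q) (hq1 : q ≤ 1) (s d : ℕ) :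
    q ^ (s + d) * d ≤ gS q (s + d) - gS q s := by
  rw [gS_add, pow_add]
  have h : q ^ d * d ≤ gS q d := by
    unfold gS
    calc q ^ d * d = ∑ _j ∈ range d, q ^ d := by simp [mul_comm]
      _ ≤ _ := Finset.sum_le_sum fun k hk =>
        pow_le_pow_of_le_one hq hq1 (Finset.mem_range.1 hk).le
  have := mul_le_mul_of_nonneg_left h (pow_nonneg hq s)
  linarith

/-- The setting. -/
structure Geo (N h x : ℕ) (q e : ℝ) (F : ℕ → ℝ) : Prop where
  h0 : 0 < h
  x0 : 0 < x
  hN : h ∣ N
  q0 : 0 ≤ q
  q1 : q ≤ 1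
  e0 : 0 ≤ e
  mono : ∀ y y', y ≤ y' → y' ≤ N + x → F y ≤ F y'
  zero : F 0 = 0
  rel : ∀ y ≤ N, h ∣ y → |F (x + y) - F x - q * F y| ≤ e

variable {N h x : ℕ} {q e : ℝ} {F : ℕ → ℝ}

theorem Geo.nonneg (G : Geo N h x q e F) {y : ℕ} (hy : y ≤ N + x) : 0 ≤ F y := by
  rw [← G.zero]
  exact G.mono 0 y (Nat.zero_le y) hy

/-- The lower sequence. -/
def zs (N h x : ℕ) : ℕ → ℕ
  | 0 => 0
  | i + 1 => (x + min (zs N h x i) N) / h * h

theorem zs_dvd (N h x : ℕ) (i : ℕ) : h ∣ zs N h x i := by
  cases i with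
  | zero => exact dvd_zero h
  | succ i => exact Dvd.intro_left _ rfl

theorem zs_le (N h x : ℕ) (i : ℕ) : zs N h x i ≤ N + x := by
  cases i with
  | zero => exact Nat.zero_le _
  | succ i =>
    refine (Nat.div_mul_le_self _ _).trans ?_
    have := min_le_right (zs N h x i) N
    omega

theorem zs_ge (hh : 0 < h) (i y : ℕ) (hy : y ≤ N) (h1 : y + i * h ≤ i * x) : y ≤ zs N h x i := by
  induction i generalizing y with
  | zero =>
    have : y = 0 := by
      simp only [Nat.zero_mul] at h1
      omega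
    rw [this]
    exact Nat.zero_le _
  | succ i ih =>
    rcases Nat.lt_or_ge x h with hxh | hxh
    · have h7 : (i + 1) * x < (i + 1) * h := Nat.mul_lt_mul_of_pos_left hxh (Nat.succ_pos i)
      have : y = 0 := by omega
      rw [this]
      exact Nat.zero_le _
    change y ≤ (x + min (zs N h x i) N) / h * h
    have h2 : y - (x - h) ≤ min (zs N h x i) N := by
      refine le_min (ih _ (by omega) ?_) (by omega)
      rw [Nat.succ_mul, Nat.succ_mul] at h1
      rcases Nat.le_total y (x - h) with h3 | h3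
      · have h4 : y - (x - h) = 0 := by omega
        rw [h4, Nat.zero_add]
        exact Nat.mul_le_mul_left i hxh
      · omega
    have h3 : (x + min (zs N h x i) N) < ((x + min (zs N h x i) N) / h + 1) * h := by
      have := Nat.lt_div_mul_add hh (a := x + min (zs N h x i) N)
      rw [Nat.add_mul, Nat.one_mul]
      exact this
    rw [Nat.add_mul, Nat.one_mul] at h3
    omega

/-- Upper bound for the distribution function. -/
theorem Geo.upper (G : Geo N h x q e F) (i : ℕ) : F (zs N h x i) ≤ F x * gS q i + i * e := by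
  have hx : 0 ≤ F x := G.nonneg (by omega)
  induction i with
  | zero =>
    change F 0 ≤ _
    rw [G.zero, gS_zero]
    simp
  | succ i ih =>
    have h1 : h ∣ min (zs N h x i) N := by
      rcases min_choice (zs N h x i) N with h2 | h2 <;> rw [h2]
      · exact zs_dvd N h x i
      · exact G.hN
    have h2 := (abs_le.1 (G.rel _ (min_le_right _ _) h1)).2
    have h3 : F (zs N h x (i + 1)) ≤ F (x + min (zs N h x i) N) := by
      refine G.mono _ _ (Nat.div_mul_le_self _ _) ?_
      have := min_le_right (zs N h x i) N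
      omega
    have h4 : F (min (zs N h x i) N) ≤ F (zs N h x i) :=
      G.mono _ _ (min_le_left _ _) (zs_le N h x i)
    have h5 : q * F (min (zs N h x i) N) ≤ q * (F x * gS q i + i * e) :=
      mul_le_mul_of_nonneg_left (h4.trans ih) G.q0
    have h6 : q * (i * e) ≤ i * e := by
      have : 0 ≤ (i : ℝ) * e := mul_nonneg (Nat.cast_nonneg i) G.e0
      nlinarith [G.q1]
    rw [gS_succ]
    push_cast
    nlinarith

theorem Geo.le_of (G : Geo N h x q e F) {i y : ℕ} (hy : y ≤ N) (h1 : y + i * h ≤ i * x) :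
    F y ≤ F x * gS q i + i * e :=
  (G.mono _ _ (zs_ge G.h0 i y hy h1) (zs_le N h x i)).trans (G.upper i)

/-- The upper sequence. -/
def ws (h x : ℕ) : ℕ → ℕ
  | 0 => 0
  | i + 1 => (x + ws h x i + (h - 1)) / h * h

theorem ws_dvd (h x : ℕ) (i : ℕ) : h ∣ ws h x i := by
  cases i with
  | zero => exact dvd_zero h
  | succ i => exact Dvd.intro_left _ rfl

theorem ws_le (h x : ℕ) (i : ℕ) : ws h x i ≤ i * x + i * h := by
  induction i with
  | zero => simp [ws]
  | succ i ih =>
    change (x + ws h x i + (h - 1)) / h * h ≤ _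
    refine (Nat.div_mul_le_self _ _).trans ?_
    rw [Nat.succ_mul, Nat.succ_mul]
    omega

theorem ws_succ_ge (hh : 0 < h) (i : ℕ) : x + ws h x i ≤ ws h x (i + 1) := by
  change _ ≤ (x + ws h x i + (h - 1)) / h * h
  have := Nat.lt_div_mul_add hh (a := x + ws h x i + (h - 1))
  omega

/-- Lower bound for the distribution function. -/
theorem Geo.lower (G : Geo N h x q e F) (i : ℕ) (hi : ws h x i ≤ N) :
    F x * gS q i - i * e ≤ F (ws h x i) := by
  induction i with
  | zero =>
    change _ ≤ F 0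
    rw [G.zero, gS_zero]
    simp
  | succ i ih =>
    have h0 := ws_succ_ge (x := x) G.h0 i
    have h1 := ih (by omega)
    have h2 := (abs_le.1 (G.rel (ws h x i) (by omega) (ws_dvd h x i))).1
    have h3 : F (x + ws h x i) ≤ F (ws h x (i + 1)) := G.mono _ _ h0 (by omega)
    have h5 : q * (F x * gS q i - i * e) ≤ q * F (ws h x i) :=
      mul_le_mul_of_nonneg_left h1 G.q0
    have h6 : q * (i * e) ≤ i * e := by
      have : 0 ≤ (i : ℝ) * e := mul_nonneg (Nat.cast_nonneg i) G.e0
      nlinarith [G.q1]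
    rw [gS_succ]
    push_cast
    nlinarith

theorem Geo.ge_of (G : Geo N h x q e F) {i y : ℕ} (hy : y ≤ N) (h1 : i * x + i * h ≤ y) :
    F x * gS q i - i * e ≤ F y :=
  (G.lower i ((ws_le h x i).trans (h1.trans hy))).trans
    (G.mono _ _ ((ws_le h x i).trans h1) (by omega))

end Pool.OC
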